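import Pool.Agent.TH687.ON.Horner
import Pool.Agent.TH687.TG.Rank
import Pool.Agent.H567.Nec.Formula
import Pool.Agent.H567.Nec.Count
import Pool.Agent.H53R6.Bound

/-!
# Lower bounds for permanents and their limits over all fields of characteristic different from two

The permanent is `VNP`-complete over every field of characteristic different from two. The lower
bounds for the permanent which are known to be more than quadratic in the size of the matrix use
points with many different integers as coordinates, so they need characteristic zero. Here a gadget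
made of two binary trees is used instead: over every commutative ring there are, for `4 * 2 ^ ℓ +
2 * ℓ ≤ m + 3`, `m × m` matrices with `2 ℓ` free entries in different rows and columns such that the
`4 ^ ℓ` derivatives of the permanent with respect to the entries of a `2 ^ ℓ × 2 ^ ℓ` submatrix are
the `4 ^ ℓ` products of linear factors `x - a` or `x - a + 2`, one for each free entry `x`. If `2` is
not zero, then each of these products but one can be made zero.

Let `k` be a field in which `2 ≠ 0` (finite fields are allowed). Everything is shown for computations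
over `k(ε)` of a family of polynomials which tends to the permanent for `ε → 0`, that is, for border
complexity.
-/

set_option autoImplicit false

open MvPolynomial

namespace Pool.Agent.Results.MP_9ce8c8_lc.OddCharacteristic

universe u

open Pool.Agent.H567.Nec (Formula Circuit Node)

/-- The field of rational functions over `K` in the variables `σ`. -/
abbrev Rational (K σ : Type*) [Field K] : Type _ := FractionRing (MvPolynomial σ K)

/-- The rational functions in which no variable of `T` occurs: the quotients of two polynomials in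
the variables outside `T`. -/
def Free (K : Type*) {σ : Type*} [Field K] (T : Set σ) : Set (Rational K σ) :=
  {x | ∃ n ∈ supported K Tᶜ, ∃ d ∈ supported K Tᶜ,
    x = algebraMap (MvPolynomial σ K) (Rational K σ) n /
      algebraMap (MvPolynomial σ K) (Rational K σ) d}

/-- `Program S p n A`: the set `A` consists of `S` and of the results of a straight-line program
which starts from the elements of `S` and performs `p` additions or subtractions and `n`
multiplications or divisions, each applied to elements of `S` or earlier results. -/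
inductive Program {F : Type*} [Field F] (S : Set F) : ℕ → ℕ → Set F → Prop
  | start : Program S 0 0 S
  | additive {p n : ℕ} {A : Set F} {a b c : F} : Program S p n A → a ∈ A → b ∈ A →
      (c = a + b ∨ c = a - b) → Program S (p + 1) n (insert c A)
  | multiplicative {p n : ℕ} {A : Set F} {a b c : F} : Program S p n A → a ∈ A → b ∈ A →
      (c = a * b ∨ c = a / b) → Program S p (n + 1) (insert c A)

/-- `F` is computed by a straight-line program with `p` additions or subtractions and `n`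
multiplications or divisions which starts from all rational functions over `K` in which no variable
of `T` occurs and from the variables in `T`. -/
def Computes (K : Type*) {σ : Type*} [Field K] (T : Set σ) (p n : ℕ) (F : MvPolynomial σ K) :
    Prop :=
  ∃ A : Set (Rational K σ), Program
      (Free K T ∪ (fun v => algebraMap (MvPolynomial σ K) (Rational K σ) (X v)) '' T) p n A ∧
    algebraMap (MvPolynomial σ K) (Rational K σ) F ∈ A

/-- All coefficients of `F` are defined at `ε = 0`, and `F` becomes `f` for `ε = 0`. -/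
def SpecializesTo {k σ : Type*} [Field k] (F : MvPolynomial σ (RatFunc k))
    (f : MvPolynomial σ k) : Prop :=
  ∀ d, (coeff d F).denom.eval 0 ≠ 0 ∧ (coeff d F).eval (RingHom.id k) 0 = coeff d f

/-- The permanent of the generic `m × m` matrix. -/
noncomputable def per (k : Type*) [CommRing k] (m : ℕ) : MvPolynomial (Fin m × Fin m) k :=
  (Matrix.of fun i j : Fin m => (X (i, j) : MvPolynomial (Fin m × Fin m) k)).permanent

open Classical in
/-- The number of nodes of `Φ` from which there is a path to the node `o` and which are labelled by a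
variable of `T`. -/
noncomputable def sources {K σ : Type*} (Φ : Circuit K σ) (o : Fin Φ.N) (T : Finset σ) : ℕ :=
  (Finset.univ.filter fun a : Fin Φ.N => Φ.Sub o a ∧ ∃ v ∈ T, Φ.node a = Node.var v).card

/-- The matrix of the coefficients of the variable `v` in a matrix of polynomials. -/
noncomputable def coefficients {K : Type*} [Field K] {n m : ℕ}
    (A : Matrix (Fin n) (Fin n) (MvPolynomial (Fin m × Fin m) K)) (v : Fin m × Fin m) :
    Matrix (Fin n) (Fin n) K :=
  Matrix.of fun a b => coeff (Finsupp.single v 1) (A a b)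

section conv

variable {F : Type*} [Field F] {S : Set F}

lemma Program.toProg {p n : ℕ} {A : Set F} (h : Program S p n A) : TH687.ON.Prog S p n A := by
  induction h with
  | start => exact TH687.ON.Prog.start
  | additive _ ha hb hc ih => exact ih.add ha hb hc
  | multiplicative _ ha hb hc ih => exact ih.mul ha hb hc

end conv

section lower

open Pool.Agent.H505R3.PRE (Rat Avail var)

/-- the lower bound in terms of jets -/
lemma lower {K σ ω : Type*} [Field K] [Fintype ω] (T T₀ : Set σ) (hT : T₀ ⊆ T) {Ξ : Type*}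
    (P : Ξ → σ → TrivSqZeroExt K (ω → K))
    (h1 : ∀ ξ, ∀ v ∈ T₀, (P ξ v).snd = 0) (h2 : ∀ ξ ξ' v, v ∉ T₀ → P ξ v = P ξ' v)
    (F : MvPolynomial σ K)
    (h3 : ∀ A : Submodule K (ω → K), (∀ ξ, (aeval (P ξ) F).snd ∈ A) → A = ⊤)
    {p n : ℕ} (h : Computes K T p n F) :
    Fintype.card ω ≤ p + 1 ∧ Fintype.card ω ≤ 2 * n + 1 := by
  obtain ⟨A, hA, hF⟩ := h
  have hA' : TH687.ON.Prog (Avail K T) p n A := hA.toProg
  obtain ⟨A₁, hA₁, hP⟩ := hA'.mono (H505R3.PRE.Avail.mono hT)
  obtain ⟨⟨R, hR1, hR2, hR3⟩, ⟨R', hR1', hR2', hR3'⟩⟩ := hP.params (hA₁ hF)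
  exact ⟨(TH687.ON.span_card T₀ P h1 h2 F h3 R hR1 hR3).trans hR2,
    (TH687.ON.span_card T₀ P h1 h2 F h3 R' hR1' hR3').trans hR2'⟩

variable {k : Type u} [Field k]

/-- transfer to limits -/
lemma border {σ ω : Type} [Fintype ω] (T T₀ : Set σ) (hT : T₀ ⊆ T) {Ξ : Type*}
    (P : Ξ → σ → TrivSqZeroExt k (ω → k))
    (h1 : ∀ ξ, ∀ v ∈ T₀, (P ξ v).snd = 0) (h2 : ∀ ξ ξ' v, v ∉ T₀ → P ξ v = P ξ' v)
    (g : MvPolynomial σ k)
    (h3 : ∀ A : Submodule k (ω → k), (∀ ξ, (aeval (P ξ) g).snd ∈ A) → A = ⊤)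
    (F : MvPolynomial σ (RatFunc k)) (hF : SpecializesTo F g)
    {p n : ℕ} (h : Computes (RatFunc k) T p n F) :
    Fintype.card ω ≤ p + 1 ∧ Fintype.card ω ≤ 2 * n + 1 := by
  refine lower T T₀ hT (fun ξ v => H567.Border.tmap ω (algebraMap (Polynomial k) (RatFunc k))
      (H567.Border.tmap ω Polynomial.C (P ξ v))) ?_ ?_ F ?_ h
  · intro ξ v hv
    funext w
    rw [H567.Border.tmap_snd, H567.Border.tmap_snd, h1 ξ v hv]
    simp
  · intro ξ ξ' v hv
    show H567.Border.tmap ω (algebraMap (Polynomial k) (RatFunc k))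
      (H567.Border.tmap ω Polynomial.C (P ξ v)) = H567.Border.tmap ω
        (algebraMap (Polynomial k) (RatFunc k)) (H567.Border.tmap ω Polynomial.C (P ξ' v))
    rw [h2 ξ ξ' v hv]
  · intro A hA
    exact H53R6.border_span' k g P h3 F hF A hA

end lower

section loc

variable {k : Type u} [Field k] (two : (2 : k) ≠ 0) {m ℓ : ℕ}
  (hm : 4 * 2 ^ ℓ + 2 * ℓ ≤ m + 3) (r c : Fin (2 * ℓ) → Fin m) (hr : Function.Injective r)
  (hc : Function.Injective c)

include two hm hr hc

/-- formulas -/
lemma local_formula (f : Formula (RatFunc k) (Fin m × Fin m)) (hf : SpecializesTo f.poly (per k m)) :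
    4 ^ ℓ ≤ 4 * f.occ (Finset.univ.image fun s => (r s, c s)) + 1 := by
  classical
  obtain ⟨Ξ, P, h1, h2, h3, -⟩ := TH687.TG.exists_jets_odd k two m ℓ hm r c hr hc
  obtain ⟨D, hD, hDmem⟩ := Formula.exists_submodule
    (P := fun ξ v => H567.Border.tmap (Fin (2 ^ ℓ) × Fin (2 ^ ℓ))
      (algebraMap (Polynomial k) (RatFunc k))
      (H567.Border.tmap (Fin (2 ^ ℓ) × Fin (2 ^ ℓ)) Polynomial.C (P ξ v)))
    (T := Finset.univ.image (fun s => (r s, c s))) (by
      intro v hv ξ
      obtain ⟨s, _, rfl⟩ := Finset.mem_image.mp hv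
      funext w
      rw [H567.Border.tmap_snd, H567.Border.tmap_snd, h1 ξ s]
      simp) (by
      intro v hv ξ ξ'
      show H567.Border.tmap _ _ _ = H567.Border.tmap _ _ _
      rw [h2 ξ ξ' v]
      exact fun s hs => hv (Finset.mem_image.mpr ⟨s, Finset.mem_univ _, hs.symm⟩)) f
  have hT : D = ⊤ := H567.Border.border_span k P h3 f.poly hf D hDmem
  rw [hT, finrank_top] at hD
  simp only [Module.finrank_fintype_fun_eq_card, Fintype.card_prod, Fintype.card_fin] at hD
  have h4 : 4 ^ ℓ = 2 ^ ℓ * 2 ^ ℓ := by rw [← mul_pow]; norm_num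
  rw [h4]
  convert hD using 3

/-- weakly skew circuits -/
lemma local_skew (Φ : Circuit (RatFunc k) (Fin m × Fin m)) (hΦ : Φ.WeaklySkew) (o : Fin Φ.N)
    (ho : SpecializesTo (Φ.value o) (per k m)) :
    2 ^ ℓ ≤ sources Φ o (Finset.univ.image fun s => (r s, c s)) + 1 := by
  classical
  obtain ⟨Ξ, P, h1, h2, h3, -⟩ := TH687.TG.exists_jets_odd k two m ℓ hm r c hr hc
  obtain ⟨χ⟩ := hΦ.exists_choice
  have hgood := Circuit.good_sub χ (T := Finset.univ.image (fun s => (r s, c s)))
    (P := fun ξ v => H567.Border.tmap (Fin (2 ^ ℓ) × Fin (2 ^ ℓ))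
      (algebraMap (Polynomial k) (RatFunc k))
      (H567.Border.tmap (Fin (2 ^ ℓ) × Fin (2 ^ ℓ)) Polynomial.C (P ξ v))) (by
      intro v hv ξ
      obtain ⟨s, _, rfl⟩ := Finset.mem_image.mp hv
      funext w
      rw [H567.Border.tmap_snd, H567.Border.tmap_snd, h1 ξ s]
      simp) (by
      intro v hv ξ ξ'
      show H567.Border.tmap _ _ _ = H567.Border.tmap _ _ _
      rw [h2 ξ ξ' v]
      exact fun s hs => hv (Finset.mem_image.mpr ⟨s, Finset.mem_univ _, hs.symm⟩)) o
  obtain ⟨D, hD, hDmem⟩ := hgood.exists_submodule ⟨o, Circuit.Reu.self χ o, rfl⟩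
  have hT : D = ⊤ := H567.Border.border_span k P h3 (Φ.value o) ho D hDmem
  rw [hT, finrank_top] at hD
  simp only [Module.finrank_fintype_fun_eq_card, Fintype.card_prod, Fintype.card_fin] at hD
  by_contra hcon
  push Not at hcon
  have h5 : sources Φ o (Finset.univ.image fun s => (r s, c s))
    = (Finset.univ.filter (fun a => Φ.Sub o a ∧ Circuit.TSrc Φ
      (Finset.univ.image (fun s => (r s, c s))) a)).card := by
    unfold sources
    congr 1
    ext a
    simp only [Finset.mem_filter]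
    exact Iff.rfl
  rw [h5] at hcon
  nlinarith

/-- matrices of polynomials of degree at most one -/
lemma local_rank (hℓ : 1 ≤ ℓ) (n : ℕ)
    (A : Matrix (Fin n) (Fin n) (MvPolynomial (Fin m × Fin m) (RatFunc k)))
    (hA : ∀ a b, (A a b).totalDegree ≤ 1) (hdet : SpecializesTo A.det (per k m)) :
    2 ^ ℓ ≤ ∑ s, (coefficients A (r s, c s)).rank := by
  classical
  have hrange : A.det ∈ (MvPolynomial.map (σ := Fin m × Fin m)
      (H632R2.Border.O0 k).toSubring.subtype).range := by
    rw [RingHom.mem_range]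
    change _ ∈ Set.range _
    rw [MvPolynomial.mem_range_map_iff_coeffs_subset]
    intro x hx
    rw [Finset.mem_coe, MvPolynomial.mem_coeffs_iff] at hx
    obtain ⟨d, _, rfl⟩ := hx
    exact ⟨⟨_, (hdet d).1⟩, rfl⟩
  obtain ⟨G, hG⟩ := hrange
  let φ : (H632R2.Border.O0 k).toSubring →+* k := H632R2.Border.φ0 k
  let ψ : k →+* (H632R2.Border.O0 k).toSubring := H632R2.Border.ψ0 k
  have hφψ : ∀ c, φ (ψ c) = c := H632R2.Border.φψ k
  have hGφ : MvPolynomial.map φ G = H567.Nec.gperm k m := by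
    ext d
    rw [MvPolynomial.coeff_map]
    refine Eq.trans ?_ (hdet d).2
    have h1 := congrArg (MvPolynomial.coeff d) hG
    rw [MvPolynomial.coeff_map] at h1
    rw [← h1]
    rfl
  have h := TH687.TG.border_local_of _ φ ψ hφψ r c hr
    (TH687.TG.exists_jets_odd k two m ℓ hm r c hr hc) A hA G hG.symm hGφ
  have hR1 : 1 ≤ ∑ s, (coefficients A (r s, c s)).rank := by
    let s0 : Fin (2 * ℓ) := ⟨0, by omega⟩
    refine le_trans (H505R3.RSB.border_rank_pos _ φ ψ hφψ A hA G hG.symm hGφ (r s0) (c s0)) ?_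
    exact Finset.single_le_sum (f := fun s => (coefficients A (r s, c s)).rank)
      (fun _ _ => Nat.zero_le _) (Finset.mem_univ s0)
  change (2 ^ ℓ) ^ 2 ≤ (∑ s, (coefficients A (r s, c s)).rank) ^ 2 + 1 at h
  by_contra hcon
  push Not at hcon
  nlinarith

/-- programs with free preprocessing -/
lemma local_program (T : Set (Fin m × Fin m)) (hT : ∀ s, (r s, c s) ∈ T) (p n : ℕ)
    (F : MvPolynomial (Fin m × Fin m) (RatFunc k)) (hF : SpecializesTo F (per k m))
    (h : Computes (RatFunc k) T p n F) : 4 ^ ℓ ≤ p + 1 ∧ 4 ^ ℓ ≤ 2 * n + 1 := by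
  classical
  obtain ⟨Ξ, P, h1, h2, h3, -⟩ := TH687.TG.exists_jets_odd k two m ℓ hm r c hr hc
  have h4 := border T (Set.range fun s => (r s, c s)) (by rintro _ ⟨s, rfl⟩; exact hT s) P
    (by rintro ξ _ ⟨s, rfl⟩; exact h1 ξ s)
    (fun ξ ξ' v hv => h2 ξ ξ' v fun s hs => hv ⟨s, hs.symm⟩) (per k m) h3 F hF h
  rw [Fintype.card_prod, Fintype.card_fin] at h4
  have h5 : 4 ^ ℓ = 2 ^ ℓ * 2 ^ ℓ := by rw [← mul_pow]; norm_num
  rw [h5]
  exact h4

end loc

section glob

open Pool.Agent.H567.Nec (rowB colB blk rowB_injective colB_injective blk_disjoint)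

lemma exists_level (m : ℕ) (hm : 16 ≤ m) :
    ∃ ℓ, 1 ≤ ℓ ∧ ℓ ≤ Nat.log 2 m ∧ 4 * 2 ^ ℓ + 2 * ℓ ≤ m + 3 ∧ m ≤ 16 * 2 ^ ℓ ∧
      m ≤ 4 * ℓ * (m / (2 * ℓ)) := by
  have h1 : 4 ≤ Nat.log 2 m := Nat.le_log_of_pow_le (by norm_num) hm
  obtain ⟨ℓ, hℓ⟩ : ∃ ℓ, Nat.log 2 m = ℓ + 3 := ⟨Nat.log 2 m - 3, by omega⟩
  have h2 : 2 ^ (ℓ + 3) ≤ m := by
    rw [← hℓ]
    exact Nat.pow_log_le_self 2 (by omega)
  have h3 : m < 2 ^ (ℓ + 3 + 1) := by
    rw [← hℓ]
    exact Nat.lt_pow_succ_log_self (by norm_num) m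
  have h4 : ℓ < 2 ^ ℓ := Nat.lt_two_pow_self
  have h5 : 2 ^ (ℓ + 3) = 8 * 2 ^ ℓ := by ring
  have h6 : 2 ^ (ℓ + 3 + 1) = 16 * 2 ^ ℓ := by ring
  have h7 : 2 * ℓ * (m / (2 * ℓ)) + m % (2 * ℓ) = m := Nat.div_add_mod m (2 * ℓ)
  have h8 : m % (2 * ℓ) < 2 * ℓ := Nat.mod_lt m (by omega)
  refine ⟨ℓ, by omega, by omega, by omega, by omega, ?_⟩
  have h9 : 4 * ℓ * (m / (2 * ℓ)) = 2 * (2 * ℓ * (m / (2 * ℓ))) := by ring
  rw [h9]
  omega

variable {k : Type u} [Field k] (two : (2 : k) ≠ 0) {m ℓ : ℕ}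
  (hm : 4 * 2 ^ ℓ + 2 * ℓ ≤ m + 3)

include two hm

lemma sum_formula (f : Formula (RatFunc k) (Fin m × Fin m)) (hf : SpecializesTo f.poly (per k m)) :
    m * (m / (2 * ℓ)) * (4 ^ ℓ - 1) ≤ 4 * f.size := by
  classical
  rcases Nat.eq_zero_or_pos m with h0 | h0
  · simp [h0]
  have : NeZero m := ⟨by omega⟩
  have hloc : ∀ p : Fin m × Fin (m / (2 * ℓ)), 4 ^ ℓ - 1 ≤ 4 * f.occ (blk m (2 * ℓ) p) := by
    intro p
    have h := local_formula two hm (rowB m (2 * ℓ) p.2) (colB m (2 * ℓ) p.1 p.2)
      (rowB_injective _ _ _) (colB_injective _ _ _ _) f hf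
    have h3 : 4 ^ ℓ ≤ 4 * f.occ (blk m (2 * ℓ) p) + 1 := by
      unfold blk
      convert h using 3
    omega
  calc m * (m / (2 * ℓ)) * (4 ^ ℓ - 1)
      = ∑ _p : Fin m × Fin (m / (2 * ℓ)), (4 ^ ℓ - 1) := by
        rw [Finset.sum_const, Finset.card_univ, Fintype.card_prod, Fintype.card_fin,
          Fintype.card_fin, smul_eq_mul]
    _ ≤ ∑ p : Fin m × Fin (m / (2 * ℓ)), 4 * f.occ (blk m (2 * ℓ) p) :=
        Finset.sum_le_sum (fun p _ => hloc p)
    _ = 4 * ∑ p : Fin m × Fin (m / (2 * ℓ)), f.occ (blk m (2 * ℓ) p) := by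
        rw [Finset.mul_sum]
    _ ≤ 4 * f.size := Nat.mul_le_mul_left _
        (Formula.sum_occ_le Finset.univ (blk m (2 * ℓ)) (blk_disjoint m (2 * ℓ)) f)

lemma sum_skew (Φ : Circuit (RatFunc k) (Fin m × Fin m)) (hΦ : Φ.WeaklySkew) (o : Fin Φ.N)
    (ho : SpecializesTo (Φ.value o) (per k m)) :
    m * (m / (2 * ℓ)) * (2 ^ ℓ - 1) ≤ Φ.size + 1 := by
  classical
  rcases Nat.eq_zero_or_pos m with h0 | h0
  · simp [h0]
  have : NeZero m := ⟨by omega⟩
  have hloc : ∀ p : Fin m × Fin (m / (2 * ℓ)), 2 ^ ℓ - 1 ≤ (Finset.univ.filter (fun a =>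
      Φ.Sub o a ∧ Circuit.TSrc Φ (blk m (2 * ℓ) p) a)).card := by
    intro p
    have h := local_skew two hm (rowB m (2 * ℓ) p.2) (colB m (2 * ℓ) p.1 p.2)
      (rowB_injective _ _ _) (colB_injective _ _ _ _) Φ hΦ o ho
    have h3 : sources Φ o (Finset.univ.image fun s => (rowB m (2 * ℓ) p.2 s,
        colB m (2 * ℓ) p.1 p.2 s)) = (Finset.univ.filter (fun a =>
      Φ.Sub o a ∧ Circuit.TSrc Φ (blk m (2 * ℓ) p) a)).card := by
      unfold sources blk
      congr 1
      ext a
      simp only [Finset.mem_filter]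
      exact Iff.rfl
    omega
  calc m * (m / (2 * ℓ)) * (2 ^ ℓ - 1)
      = ∑ _p : Fin m × Fin (m / (2 * ℓ)), (2 ^ ℓ - 1) := by
        rw [Finset.sum_const, Finset.card_univ, Fintype.card_prod, Fintype.card_fin,
          Fintype.card_fin, smul_eq_mul]
    _ ≤ ∑ p : Fin m × Fin (m / (2 * ℓ)), (Finset.univ.filter (fun a =>
      Φ.Sub o a ∧ Circuit.TSrc Φ (blk m (2 * ℓ) p) a)).card :=
        Finset.sum_le_sum (fun p _ => hloc p)
    _ ≤ Φ.size + 1 := Circuit.sum_sources_le Φ o Finset.univ (blk m (2 * ℓ))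
        (blk_disjoint m (2 * ℓ))

lemma sum_rank (hℓ : 1 ≤ ℓ) (n : ℕ)
    (A : Matrix (Fin n) (Fin n) (MvPolynomial (Fin m × Fin m) (RatFunc k)))
    (hA : ∀ a b, (A a b).totalDegree ≤ 1) (hdet : SpecializesTo A.det (per k m)) :
    m * (m / (2 * ℓ)) * 2 ^ ℓ ≤ ∑ v, (coefficients A v).rank := by
  classical
  have : NeZero m := ⟨by
    rintro rfl
    have := Nat.one_le_two_pow (n := ℓ)
    omega⟩
  have hloc : ∀ p : Fin m × Fin (m / (2 * ℓ)),
      2 ^ ℓ ≤ ∑ v ∈ blk m (2 * ℓ) p, (coefficients A v).rank := by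
    intro p
    have h := local_rank two hm (rowB m (2 * ℓ) p.2) (colB m (2 * ℓ) p.1 p.2)
      (rowB_injective _ _ _) (colB_injective _ _ _ _) hℓ n A hA hdet
    have h2 : ∑ v ∈ blk m (2 * ℓ) p, (coefficients A v).rank
        = ∑ s, (coefficients A (rowB m (2 * ℓ) p.2 s, colB m (2 * ℓ) p.1 p.2 s)).rank := by
      unfold blk
      rw [Finset.sum_image]
      intro s _ s' _ hss
      exact rowB_injective _ _ _ (congrArg Prod.fst hss)
    rw [h2]
    exact h
  calc m * (m / (2 * ℓ)) * 2 ^ ℓ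
      = ∑ _p : Fin m × Fin (m / (2 * ℓ)), 2 ^ ℓ := by
        rw [Finset.sum_const, Finset.card_univ, Fintype.card_prod, Fintype.card_fin,
          Fintype.card_fin, smul_eq_mul]
    _ ≤ ∑ p : Fin m × Fin (m / (2 * ℓ)), ∑ v ∈ blk m (2 * ℓ) p, (coefficients A v).rank :=
        Finset.sum_le_sum (fun p _ => hloc p)
    _ ≤ _ := by
        rw [← Finset.sum_biUnion (blk_disjoint m (2 * ℓ))]
        exact Finset.sum_le_sum_of_subset (Finset.subset_univ _)

end glob

/-- **Limits of computations of the permanent in characteristic different from two.** Let `k` be a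
field with `2 ≠ 0`.

Let `4 * 2 ^ ℓ + 2 * ℓ ≤ m + 3`, let `r s`, `c s` (`s < 2 ℓ`) be different rows and different columns
of the generic `m × m` matrix and call `x_s` the variable in the row `r s` and the column `c s`.
1. In every formula over `k(ε)` (with the operations `+`, `*`) whose polynomial tends to the
   permanent for `ε → 0`, at least `(4 ^ ℓ - 1) / 4` leaves are labelled by variables `x_s`.
2. In every weakly skew circuit over `k(ε)` with an output which tends to the permanent, at least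
   `2 ^ ℓ - 1` sources which are connected with the output are labelled by variables `x_s`.
3. In every matrix over `k(ε)` of polynomials of degree at most one (of any order `n`) with a
   determinant which tends to the permanent, the coefficient matrices of the variables `x_s` have
   ranks with sum at least `2 ^ ℓ`, if `ℓ ≥ 1`.
4. If a straight-line program over `k(ε)` may start from all rational functions without variables
   from a set `T` and from the variables in `T`, where all `x_s` are in `T`, and computes a polynomial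
   which tends to the permanent, then it performs at least `4 ^ ℓ - 1` additions and subtractions and
   at least `(4 ^ ℓ - 1) / 2` multiplications and divisions.

For all `m ≥ 16`:
5. a formula over `k(ε)` with a polynomial which tends to the permanent has at least
   `m ^ 4 / (5462 log₂ m)` leaves labelled by variables;
6. a weakly skew circuit over `k(ε)` with an output which tends to the permanent has at least
   `m ^ 3 / (128 log₂ m) - 1` gates;
7. if the determinant of an `n × n` matrix over `k(ε)` of polynomials of degree at most one tends to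
   the permanent, then the ranks of the coefficient matrices of the `m ^ 2` variables have sum at
   least `m ^ 3 / (64 log₂ m)`. -/
theorem result (k : Type u) [Field k] (two : (2 : k) ≠ 0) (m : ℕ) :
    (∀ ℓ, 4 * 2 ^ ℓ + 2 * ℓ ≤ m + 3 → ∀ r c : Fin (2 * ℓ) → Fin m,
      Function.Injective r → Function.Injective c →
      (∀ f : Formula (RatFunc k) (Fin m × Fin m), SpecializesTo f.poly (per k m) →
        4 ^ ℓ ≤ 4 * f.occ (Finset.univ.image fun s => (r s, c s)) + 1) ∧
      (∀ (Φ : Circuit (RatFunc k) (Fin m × Fin m)) (o : Fin Φ.N), Φ.WeaklySkew →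
        SpecializesTo (Φ.value o) (per k m) →
        2 ^ ℓ ≤ sources Φ o (Finset.univ.image fun s => (r s, c s)) + 1) ∧
      (1 ≤ ℓ → ∀ (n : ℕ) (A : Matrix (Fin n) (Fin n) (MvPolynomial (Fin m × Fin m) (RatFunc k))),
        (∀ a b, (A a b).totalDegree ≤ 1) → SpecializesTo A.det (per k m) →
        2 ^ ℓ ≤ ∑ s, (coefficients A (r s, c s)).rank) ∧
      (∀ T : Set (Fin m × Fin m), (∀ s, (r s, c s) ∈ T) →
        ∀ (p n : ℕ) (F : MvPolynomial (Fin m × Fin m) (RatFunc k)), SpecializesTo F (per k m) →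
        Computes (RatFunc k) T p n F → 4 ^ ℓ ≤ p + 1 ∧ 4 ^ ℓ ≤ 2 * n + 1)) ∧
    (16 ≤ m →
      (∀ f : Formula (RatFunc k) (Fin m × Fin m), SpecializesTo f.poly (per k m) →
        m ^ 4 ≤ 5462 * Nat.log 2 m * f.size) ∧
      (∀ (Φ : Circuit (RatFunc k) (Fin m × Fin m)) (o : Fin Φ.N), Φ.WeaklySkew →
        SpecializesTo (Φ.value o) (per k m) → m ^ 3 ≤ 128 * Nat.log 2 m * (Φ.size + 1)) ∧
      (∀ (n : ℕ) (A : Matrix (Fin n) (Fin n) (MvPolynomial (Fin m × Fin m) (RatFunc k))),
        (∀ a b, (A a b).totalDegree ≤ 1) → SpecializesTo A.det (per k m) →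
        m ^ 3 ≤ 64 * Nat.log 2 m * ∑ v, (coefficients A v).rank)) := by
  classical
  refine ⟨fun ℓ hm r c hr hc => ⟨fun f hf => ?_, fun Φ o hΦ ho => ?_,
    fun hℓ n A hA hdet => ?_, fun T hT p n F hF h => ?_⟩, fun hm => ?_⟩
  · convert local_formula two hm r c hr hc f hf using 3
  · convert local_skew two hm r c hr hc Φ hΦ o ho using 2
  · exact local_rank two hm r c hr hc hℓ n A hA hdet
  · exact local_program two hm r c hr hc T hT p n F hF h
  · obtain ⟨ℓ, hℓ, hℓm, h1, h2, h3⟩ := exists_level m hm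
    refine ⟨fun f hf => ?_, fun Φ o hΦ ho => ?_, fun n A hA hdet => ?_⟩
    · have h4 := sum_formula two h1 f hf
      have h5 : 4 ≤ 4 ^ ℓ := by
        calc 4 = 4 ^ 1 := by norm_num
          _ ≤ 4 ^ ℓ := Nat.pow_le_pow_right (by norm_num) hℓ
      have h6 : 3 * 4 ^ ℓ ≤ 4 * (4 ^ ℓ - 1) := by omega
      have h7 : m ^ 2 ≤ 256 * 4 ^ ℓ := by
        calc m ^ 2 ≤ (16 * 2 ^ ℓ) ^ 2 := Nat.pow_le_pow_left h2 2
          _ = 256 * 4 ^ ℓ := by
            rw [mul_pow, ← pow_mul, mul_comm ℓ 2, pow_mul]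
            norm_num
      set B := m / (2 * ℓ) with hB
      have h8 : 3 * m ^ 4 ≤ 16384 * ℓ * f.size := by
        calc 3 * m ^ 4 = 3 * (m * m * m ^ 2) := by ring
          _ ≤ 3 * (m * (4 * ℓ * B) * (256 * 4 ^ ℓ)) := by gcongr
          _ = 1024 * ℓ * (m * B * (3 * 4 ^ ℓ)) := by ring
          _ ≤ 1024 * ℓ * (m * B * (4 * (4 ^ ℓ - 1))) := by gcongr
          _ = 4096 * ℓ * (m * B * (4 ^ ℓ - 1)) := by ring
          _ ≤ 4096 * ℓ * (4 * f.size) := by gcongr
          _ = 16384 * ℓ * f.size := by ring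
      have h9 : ℓ * f.size ≤ Nat.log 2 m * f.size := Nat.mul_le_mul_right _ hℓm
      have h10 : 16384 * ℓ * f.size = 16384 * (ℓ * f.size) := by ring
      have h11 : 5462 * Nat.log 2 m * f.size = 5462 * (Nat.log 2 m * f.size) := by ring
      rw [h10] at h8
      rw [h11]
      omega
    · have h4 := sum_skew two h1 Φ hΦ o ho
      have h5 : 2 ≤ 2 ^ ℓ := by
        calc 2 = 2 ^ 1 := by norm_num
          _ ≤ 2 ^ ℓ := Nat.pow_le_pow_right (by norm_num) hℓ
      have h6 : 2 ^ ℓ ≤ 2 * (2 ^ ℓ - 1) := by omega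
      set B := m / (2 * ℓ) with hB
      calc m ^ 3 = m * m * m := by ring
        _ ≤ m * (4 * ℓ * B) * (16 * 2 ^ ℓ) := by gcongr
        _ = 64 * ℓ * (m * B * 2 ^ ℓ) := by ring
        _ ≤ 64 * ℓ * (m * B * (2 * (2 ^ ℓ - 1))) := by gcongr
        _ = 128 * ℓ * (m * B * (2 ^ ℓ - 1)) := by ring
        _ ≤ 128 * ℓ * (Φ.size + 1) := by gcongr
        _ ≤ 128 * Nat.log 2 m * (Φ.size + 1) := by gcongr
    · have h4 := sum_rank two h1 hℓ n A hA hdet
      set B := m / (2 * ℓ) with hB
      calc m ^ 3 = m * m * m := by ring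
        _ ≤ m * (4 * ℓ * B) * (16 * 2 ^ ℓ) := by gcongr
        _ = 64 * ℓ * (m * B * 2 ^ ℓ) := by ring
        _ ≤ 64 * ℓ * ∑ v, (coefficients A v).rank := by gcongr
        _ ≤ 64 * Nat.log 2 m * ∑ v, (coefficients A v).rank := by gcongr

end Pool.Agent.Results.MP_9ce8c8_lc.OddCharacteristic
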