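import Pool.Agent.TH687.ON.Horner
import Pool.Agent.H53R6.Bound

/-!
# The cost of the permanent when almost everything may be computed in advance

Let `T` be a set of entries of the generic `m × m` matrix. A computation of the permanent starts
from all rational functions in which no variable of `T` occurs, and from the variables of `T`:
everything that does not depend on the entries in `T` may be computed in advance, at no cost. Only
the operations `+ - * /` which are performed when the entries in `T` are known are counted.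

If `T` contains `2 ℓ` entries in different rows and different columns, `2 ℓ + q ≤ m` and `q ≤ 2 ^ ℓ`
then the permanent needs at least `q ^ 2 - 1` additions and subtractions, whatever the number of the
multiplications and divisions is, and at least `(q ^ 2 - 1) / 2` multiplications and divisions,
whatever the number of additions and subtractions is. So for `ℓ = ⌈log₂ m⌉`, when only `2 ⌈log₂ m⌉`
of the `m ^ 2` entries are not known in advance, still `m ^ 2 - O (m log m)` additions are needed.
The same holds for limits, i.e. for computations over `k(ε)` of a family of polynomials which tends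
to the permanent, and, up to one operation, for families which tend to any nonzero multiple of the
permanent or to any nonzero polynomial which vanishes where the permanent vanishes.

For `m ≥ 2 ℓ + 2 ^ ℓ` and a set `T` of `2 ℓ` entries in different rows and columns the number of
additions and subtractions is exactly `4 ^ ℓ - 1`.
-/

set_option autoImplicit false

open MvPolynomial

namespace Pool.Agent.Results.MP_9ce8c8_lc.OnlineCost

universe u

/-- The field of rational functions over `K` in the variables `σ`. -/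
abbrev Rational (K σ : Type*) [Field K] : Type _ := FractionRing (MvPolynomial σ K)

/-- The rational functions in which no variable of `T` occurs: the quotients of two polynomials in
the variables outside `T`. -/
def Free (K : Type*) {σ : Type*} [Field K] (T : Set σ) : Set (Rational K σ) :=
  {x | ∃ n ∈ supported K Tᶜ, ∃ d ∈ supported K Tᶜ,
    x = algebraMap (MvPolynomial σ K) (Rational K σ) n /
      algebraMap (MvPolynomial σ K) (Rational K σ) d}

/-- `Program S p n A`: the set `A` consists of `S` and of the results of a straight-line program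
which starts from the elements of `S` and performs `p` additions or subtractions and `n`
multiplications or divisions, each applied to elements of `S` or earlier results. -/
inductive Program {F : Type*} [Field F] (S : Set F) : ℕ → ℕ → Set F → Prop
  | start : Program S 0 0 S
  | additive {p n : ℕ} {A : Set F} {a b c : F} : Program S p n A → a ∈ A → b ∈ A →
      (c = a + b ∨ c = a - b) → Program S (p + 1) n (insert c A)
  | multiplicative {p n : ℕ} {A : Set F} {a b c : F} : Program S p n A → a ∈ A → b ∈ A →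
      (c = a * b ∨ c = a / b) → Program S p (n + 1) (insert c A)

/-- `F` is computed by a straight-line program with `p` additions or subtractions and `n`
multiplications or divisions which starts from all rational functions over `K` in which no variable
of `T` occurs and from the variables in `T`. -/
def Computes (K : Type*) {σ : Type*} [Field K] (T : Set σ) (p n : ℕ) (F : MvPolynomial σ K) :
    Prop :=
  ∃ A : Set (Rational K σ), Program
      (Free K T ∪ (fun v => algebraMap (MvPolynomial σ K) (Rational K σ) (X v)) '' T) p n A ∧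
    algebraMap (MvPolynomial σ K) (Rational K σ) F ∈ A

/-- All coefficients of `F` are defined at `ε = 0`, and `F` becomes `f` for `ε = 0`. -/
def SpecializesTo {k σ : Type*} [Field k] (F : MvPolynomial σ (RatFunc k))
    (f : MvPolynomial σ k) : Prop :=
  ∀ d, (coeff d F).denom.eval 0 ≠ 0 ∧ (coeff d F).eval (RingHom.id k) 0 = coeff d f

/-- The permanent of the generic `m × m` matrix. -/
noncomputable def per (k : Type*) [CommRing k] (m : ℕ) : MvPolynomial (Fin m × Fin m) k :=
  (Matrix.of fun i j : Fin m => (X (i, j) : MvPolynomial (Fin m × Fin m) k)).permanent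

/-- The `m × m` matrices over `k` with permanent zero are zeros of `g`. -/
def VanishesWithPermanent {k : Type*} [Field k] {m : ℕ} (g : MvPolynomial (Fin m × Fin m) k) :
    Prop :=
  ∀ M : Matrix (Fin m) (Fin m) k, M.permanent = 0 → eval (fun v => M v.1 v.2) g = 0

section conv

variable {F : Type*} [Field F] {S : Set F}

lemma Program.toProg {p n : ℕ} {A : Set F} (h : Program S p n A) : TH687.ON.Prog S p n A := by
  induction h with
  | start => exact TH687.ON.Prog.start
  | additive _ ha hb hc ih => exact ih.add ha hb hc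
  | multiplicative _ ha hb hc ih => exact ih.mul ha hb hc

lemma Program.ofProg {p n : ℕ} {A : Set F} (h : TH687.ON.Prog S p n A) : Program S p n A := by
  induction h with
  | start => exact Program.start
  | add _ ha hb hc ih => exact ih.additive ha hb hc
  | mul _ ha hb hc ih => exact ih.multiplicative ha hb hc

end conv

section lower

open Pool.Agent.H505R3.PRE (Rat Avail var)

/-- the lower bound in terms of jets -/
lemma lower {K σ ω : Type*} [Field K] [Fintype ω] (T T₀ : Set σ) (hT : T₀ ⊆ T) {Ξ : Type*}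
    (P : Ξ → σ → TrivSqZeroExt K (ω → K))
    (h1 : ∀ ξ, ∀ v ∈ T₀, (P ξ v).snd = 0) (h2 : ∀ ξ ξ' v, v ∉ T₀ → P ξ v = P ξ' v)
    (F : MvPolynomial σ K)
    (h3 : ∀ A : Submodule K (ω → K), (∀ ξ, (aeval (P ξ) F).snd ∈ A) → A = ⊤)
    {p n : ℕ} (h : Computes K T p n F) :
    Fintype.card ω ≤ p + 1 ∧ Fintype.card ω ≤ 2 * n + 1 := by
  obtain ⟨A, hA, hF⟩ := h
  have hA' : TH687.ON.Prog (Avail K T) p n A := hA.toProg
  obtain ⟨A₁, hA₁, hP⟩ := hA'.mono (H505R3.PRE.Avail.mono hT)
  obtain ⟨⟨R, hR1, hR2, hR3⟩, ⟨R', hR1', hR2', hR3'⟩⟩ := hP.params (hA₁ hF)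
  exact ⟨(TH687.ON.span_card T₀ P h1 h2 F h3 R hR1 hR3).trans hR2,
    (TH687.ON.span_card T₀ P h1 h2 F h3 R' hR1' hR3').trans hR2'⟩

variable {k : Type u} [Field k] [CharZero k]

/-- the points for the permanent -/
lemma exists_jets_le (m ℓ q : ℕ) (hm : 2 * ℓ + q ≤ m) (hq : q ≤ 2 ^ ℓ)
    (r c : Fin (2 * ℓ) → Fin m) (hr : Function.Injective r) (hc : Function.Injective c) :
    ∃ (Ξ : Type) (P : (Ξ → k) → (Fin m × Fin m) → TrivSqZeroExt k (Fin q × Fin q → k)),
      (∀ ξ, ∀ v ∈ Set.range fun s => (r s, c s), (P ξ v).snd = 0) ∧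
      (∀ ξ ξ' v, v ∉ (Set.range fun s => (r s, c s)) → P ξ v = P ξ' v) ∧
      (∀ A : Submodule k (Fin q × Fin q → k),
        (∀ ξ, (aeval (P ξ) (per k m)).snd ∈ A) → A = ⊤) := by
  obtain ⟨Ξ, w, x, _, hw, hx, h3⟩ := H505R3.PRE.exists_points k m ℓ q hm hq r c hr hc
  refine ⟨Ξ, fun ξ => H505R3.PRE.jet w (x ξ), ?_, ?_, h3⟩
  · rintro ξ v ⟨s, rfl⟩
    funext p
    unfold H505R3.PRE.jet
    rw [TrivSqZeroExt.snd_add, TrivSqZeroExt.snd_inl, TrivSqZeroExt.snd_inr, zero_add,
      if_neg (hw p s), Pi.zero_apply]
  · intro ξ ξ' v hv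
    have h4 : x ξ v = x ξ' v := hx ξ ξ' v fun s hs => hv ⟨s, hs.symm⟩
    show H505R3.PRE.jet w (x ξ) v = H505R3.PRE.jet w (x ξ') v
    unfold H505R3.PRE.jet
    rw [h4]

/-- the points for polynomials vanishing where the permanent vanishes -/
lemma exists_jets_vanish_le (m ℓ q : ℕ) (hm : 2 * ℓ + q ≤ m) (hq : q ≤ 2 ^ ℓ) (hq0 : 1 ≤ q)
    (r c : Fin (2 * ℓ) → Fin m) (hr : Function.Injective r) (hc : Function.Injective c)
    (g : MvPolynomial (Fin m × Fin m) k) (hg : g ≠ 0) (hv : VanishesWithPermanent g) :
    ∃ P : (Fin m × Fin m → k) → (Fin m × Fin m) → TrivSqZeroExt k (Fin (q ^ 2 - 1) → k),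
      (∀ ξ, ∀ v ∈ Set.range fun s => (r s, c s), (P ξ v).snd = 0) ∧
      (∀ ξ ξ' v, v ∉ (Set.range fun s => (r s, c s)) → P ξ v = P ξ' v) ∧
      (∀ A : Submodule k (Fin (q ^ 2 - 1) → k), (∀ ξ, (aeval (P ξ) g).snd ∈ A) → A = ⊤) := by
  classical
  obtain ⟨Ξ, P, h1, h2, h3⟩ := exists_jets_le (k := k) m ℓ q hm hq r c hr hc
  set T : Finset (Fin m × Fin m) := Finset.univ.image fun s => (r s, c s) with hT
  have hmem : ∀ v, v ∈ T ↔ v ∈ Set.range fun s => (r s, c s) := by
    intro v
    rw [hT, Finset.mem_image]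
    constructor
    · rintro ⟨s, _, h⟩
      exact ⟨s, h⟩
    · rintro ⟨s, h⟩
      exact ⟨s, Finset.mem_univ _, h⟩
  obtain ⟨P', h1', h2', h3'⟩ := H53R6.jets_of_vanish T (H567.Nec.gperm k m) g
    (H53R6.gperm_ne_zero m) hg (fun x hx => hv (Matrix.of fun i j => x (i, j)) (by
      rw [← hx]
      unfold H567.Nec.gperm Matrix.permanent
      rw [map_sum]
      simp only [map_prod, Matrix.of_apply, eval_X]))
    (fun x _ => H53R6.exists_split m x) P (fun ξ v hv => h1 ξ v ((hmem v).1 hv))
    (fun ξ ξ' v hv => h2 ξ ξ' v fun h => hv ((hmem v).2 h)) h3 (q ^ 2 - 1) (by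
      rw [Fintype.card_prod, Fintype.card_fin]
      have : 1 ≤ q ^ 2 := Nat.one_le_pow _ _ hq0
      rw [← pow_two]
      omega)
  exact ⟨P', fun ξ v hv => h1' ξ v ((hmem v).2 hv),
    fun ξ ξ' v hv => h2' ξ ξ' v fun h => hv ((hmem v).1 h), h3'⟩

/-- transfer to limits -/
lemma border {σ ω : Type} [Fintype ω] (T T₀ : Set σ) (hT : T₀ ⊆ T) {Ξ : Type*}
    (P : Ξ → σ → TrivSqZeroExt k (ω → k))
    (h1 : ∀ ξ, ∀ v ∈ T₀, (P ξ v).snd = 0) (h2 : ∀ ξ ξ' v, v ∉ T₀ → P ξ v = P ξ' v)
    (g : MvPolynomial σ k)
    (h3 : ∀ A : Submodule k (ω → k), (∀ ξ, (aeval (P ξ) g).snd ∈ A) → A = ⊤)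
    (F : MvPolynomial σ (RatFunc k)) (hF : SpecializesTo F g)
    {p n : ℕ} (h : Computes (RatFunc k) T p n F) :
    Fintype.card ω ≤ p + 1 ∧ Fintype.card ω ≤ 2 * n + 1 := by
  refine lower T T₀ hT (fun ξ v => H567.Border.tmap ω (algebraMap (Polynomial k) (RatFunc k))
      (H567.Border.tmap ω Polynomial.C (P ξ v))) ?_ ?_ F ?_ h
  · intro ξ v hv
    funext w
    rw [H567.Border.tmap_snd, H567.Border.tmap_snd, h1 ξ v hv]
    simp
  · intro ξ ξ' v hv
    show H567.Border.tmap ω (algebraMap (Polynomial k) (RatFunc k))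
      (H567.Border.tmap ω Polynomial.C (P ξ v)) = H567.Border.tmap ω
        (algebraMap (Polynomial k) (RatFunc k)) (H567.Border.tmap ω Polynomial.C (P ξ' v))
    rw [h2 ξ ξ' v hv]
  · intro A hA
    exact H53R6.border_span' k g P h3 F hF A hA

end lower

section upper

open Pool.Agent.H505R3.PRE (Rat Avail var)

/-- the permanent by Horner's rule -/
theorem upper (K : Type*) [Field K] (m : ℕ) (T : Finset (Fin m × Fin m)) :
    Computes K (T : Set (Fin m × Fin m)) (2 ^ T.card - 1) (2 ^ T.card - 1) (per K m) := by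
  classical
  let s : Equiv.Perm (Fin m) → Finset (Fin m × Fin m) := fun π =>
    (Finset.univ.image fun i => (π i, i)).filter fun v => v ∈ T
  let cp : Finset (Fin m × Fin m) → MvPolynomial (Fin m × Fin m) K := fun S =>
    ∑ π ∈ Finset.univ.filter fun π : Equiv.Perm (Fin m) => s π = S,
      ∏ v ∈ (Finset.univ.image fun i => (π i, i)).filter fun v => v ∉ T, X v
  have hcp : ∀ S, cp S ∈ supported K ((T : Set (Fin m × Fin m))ᶜ) := by
    intro S
    refine Subalgebra.sum_mem _ fun π _ => Subalgebra.prod_mem _ fun v hv => ?_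
    rw [supported_eq_adjoin_X]
    exact Algebra.subset_adjoin ⟨v, fun h => (Finset.mem_filter.1 hv).2 (Finset.mem_coe.1 h), rfl⟩
  obtain ⟨A, hA, hmem⟩ := TH687.ON.horner (K := K) (T : Set (Fin m × Fin m)) T
    (fun v hv => Finset.mem_coe.2 hv)
    (fun S => algebraMap (MvPolynomial (Fin m × Fin m) K) (Rat K (Fin m × Fin m)) (cp S))
    (fun S => ⟨cp S, hcp S, 1, Subalgebra.one_mem _, by simp⟩)
  refine ⟨A, Program.ofProg hA, ?_⟩
  have hper : per K m = ∑ S ∈ T.powerset, cp S * ∏ v ∈ S, X v := by
    have h1 : per K m = ∑ π : Equiv.Perm (Fin m), ∏ v ∈ Finset.univ.image fun i => (π i, i),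
        (X v : MvPolynomial (Fin m × Fin m) K) := by
      unfold per Matrix.permanent
      refine Finset.sum_congr rfl fun π _ => ?_
      rw [Finset.prod_image]
      · rfl
      · intro i _ j _ h
        exact congrArg Prod.snd h
    rw [h1, ← Finset.sum_fiberwise_of_maps_to (s := Finset.univ) (t := T.powerset) (g := s)
      (fun π _ => Finset.mem_powerset.2 fun v hv => (Finset.mem_filter.1 hv).2)]
    refine Finset.sum_congr rfl fun S _ => ?_
    show _ = (∑ π ∈ Finset.univ.filter fun π : Equiv.Perm (Fin m) => s π = S,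
      ∏ v ∈ (Finset.univ.image fun i => (π i, i)).filter fun v => v ∉ T, X v) * ∏ v ∈ S, X v
    rw [Finset.sum_mul]
    refine Finset.sum_congr rfl fun π hπ => ?_
    have h2 : s π = S := (Finset.mem_filter.1 hπ).2
    rw [← Finset.prod_filter_mul_prod_filter_not (Finset.univ.image fun i => (π i, i))
      (fun v => v ∈ T), mul_comm]
    congr 1
    show ∏ v ∈ s π, (X v : MvPolynomial (Fin m × Fin m) K) = _
    rw [h2]
  rw [hper, map_sum]
  convert hmem using 1
  refine Finset.sum_congr rfl fun S _ => ?_
  rw [map_mul, map_prod]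
  rfl

end upper

/-- **The cost of the permanent when almost everything may be computed in advance.** Let `k` be a
field of characteristic zero, let `r s`, `c s` (`s < 2 ℓ`) be different rows and different columns
of the generic `m × m` matrix, `2 ℓ + q ≤ m`, `q ≤ 2 ^ ℓ`, and let `T` be any set of entries which
contains the `2 ℓ` entries `(r s, c s)`. A program may start from all rational functions in which no
variable of `T` occurs and from the variables in `T`; its `p` additions and subtractions and its `n`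
multiplications and divisions are counted.

1. If the program computes the permanent then `q ^ 2 ≤ p + 1` and `q ^ 2 ≤ 2 n + 1`.
2. If the program, over `k(ε)`, computes a polynomial `F` which tends, for `ε → 0`, to the permanent
   then `q ^ 2 ≤ p + 1` and `q ^ 2 ≤ 2 n + 1`.
3. If the program, over `k(ε)`, computes a polynomial `F` which tends to a nonzero polynomial `g`
   over `k` which vanishes at all matrices over `k` with permanent zero, for example to a nonzero
   multiple of the permanent, then `q ^ 2 ≤ p + 2` and `q ^ 2 ≤ 2 n + 2`.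
4. Some program, without divisions, computes the permanent with `2 ^ |T| - 1` additions and
   `2 ^ |T| - 1` multiplications; and if `2 ℓ + 2 ^ ℓ ≤ m` and `T` consists of the `2 ℓ` entries
   `(r s, c s)`, then `4 ^ ℓ - 1` is the least possible number of additions and subtractions. -/
theorem result (k : Type u) [Field k] [CharZero k] (m ℓ : ℕ) (r c : Fin (2 * ℓ) → Fin m)
    (hr : Function.Injective r) (hc : Function.Injective c) :
    (∀ q, 2 * ℓ + q ≤ m → q ≤ 2 ^ ℓ → ∀ T : Set (Fin m × Fin m), (∀ s, (r s, c s) ∈ T) →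
      (∀ p n, Computes k T p n (per k m) → q ^ 2 ≤ p + 1 ∧ q ^ 2 ≤ 2 * n + 1) ∧
      (∀ p n (F : MvPolynomial (Fin m × Fin m) (RatFunc k)), SpecializesTo F (per k m) →
        Computes (RatFunc k) T p n F → q ^ 2 ≤ p + 1 ∧ q ^ 2 ≤ 2 * n + 1) ∧
      (∀ p n (F : MvPolynomial (Fin m × Fin m) (RatFunc k)) (g : MvPolynomial (Fin m × Fin m) k),
        g ≠ 0 → VanishesWithPermanent g → SpecializesTo F g →
        Computes (RatFunc k) T p n F → q ^ 2 ≤ p + 2 ∧ q ^ 2 ≤ 2 * n + 2)) ∧
    (∀ T : Finset (Fin m × Fin m),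
      Computes k (T : Set (Fin m × Fin m)) (2 ^ T.card - 1) (2 ^ T.card - 1) (per k m)) ∧
    (2 * ℓ + 2 ^ ℓ ≤ m →
      IsLeast {p | ∃ n, Computes k (Set.range fun s => (r s, c s)) p n (per k m)}
        (4 ^ ℓ - 1)) := by
  classical
  have hexact : ∀ q, 2 * ℓ + q ≤ m → q ≤ 2 ^ ℓ → ∀ T : Set (Fin m × Fin m),
      (∀ s, (r s, c s) ∈ T) → ∀ p n, Computes k T p n (per k m) →
      q ^ 2 ≤ p + 1 ∧ q ^ 2 ≤ 2 * n + 1 := by
    intro q hm hq T hT p n h
    obtain ⟨Ξ, P, h1, h2, h3⟩ := exists_jets_le (k := k) m ℓ q hm hq r c hr hc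
    have h4 := lower T (Set.range fun s => (r s, c s)) (by rintro _ ⟨s, rfl⟩; exact hT s) P h1 h2
      (per k m) h3 h
    rw [Fintype.card_prod, Fintype.card_fin, ← pow_two] at h4
    exact h4
  refine ⟨fun q hm hq T hT => ⟨hexact q hm hq T hT, ?_, ?_⟩, upper k m, ?_⟩
  · intro p n F hF h
    obtain ⟨Ξ, P, h1, h2, h3⟩ := exists_jets_le (k := k) m ℓ q hm hq r c hr hc
    have h4 := border T (Set.range fun s => (r s, c s)) (by rintro _ ⟨s, rfl⟩; exact hT s) P h1 h2
      (per k m) h3 F hF h
    rw [Fintype.card_prod, Fintype.card_fin, ← pow_two] at h4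
    exact h4
  · intro p n F g hg hv hF h
    rcases Nat.eq_zero_or_pos q with rfl | hq0
    · simp
    · obtain ⟨P, h1, h2, h3⟩ := exists_jets_vanish_le (k := k) m ℓ q hm hq hq0 r c hr hc g hg hv
      have h4 := border T (Set.range fun s => (r s, c s)) (by rintro _ ⟨s, rfl⟩; exact hT s) P
        h1 h2 g h3 F hF h
      rw [Fintype.card_fin] at h4
      omega
  · intro hm
    constructor
    · refine ⟨2 ^ (2 * ℓ) - 1, ?_⟩
      have h1 := upper k m (Finset.univ.image fun s => (r s, c s))
      have h2 : (Finset.univ.image fun s : Fin (2 * ℓ) => (r s, c s)).card = 2 * ℓ := by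
        rw [Finset.card_image_of_injective _ (fun a b h => hr (congrArg Prod.fst h)),
          Finset.card_univ, Fintype.card_fin]
      rw [h2, Finset.coe_image, Finset.coe_univ, Set.image_univ] at h1
      have h3 : 4 ^ ℓ - 1 = 2 ^ (2 * ℓ) - 1 := by rw [pow_mul]; norm_num
      rw [h3]
      exact h1
    · rintro p ⟨n, h⟩
      have h1 := (hexact (2 ^ ℓ) hm le_rfl (Set.range fun s => (r s, c s)) (fun s => ⟨s, rfl⟩) p n h).1
      have h2 : (2 ^ ℓ) ^ 2 = 4 ^ ℓ := by rw [← pow_mul, mul_comm, pow_mul]; norm_num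
      rw [h2] at h1
      omega

end Pool.Agent.Results.MP_9ce8c8_lc.OnlineCost
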