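import Pool.Agent.TH711.PC.Asym
import Pool.Agent.TH711.PC.Sharp

/-!
# MP_9ce8c8_lc: the approximative complexity of the permanent on the cosets of a linear space

Let `V` be a linear space of `n × n` matrices over an infinite field `k`. On a coset `A + V` the
permanent is a polynomial in `dim V` variables. We show that the exponent `1` is the threshold for
the dimension of `V` at which these polynomials become as hard as the permanent itself, in the sense
of the approximative complexity `\underline{L}`:

* if `dim V ≥ 2 n (q - 1) + 2 q ^ 4` and `n ≥ 2 q ^ 2 + q`, then the permanent of the generic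
  `q × q` matrix is approximated by a linear combination of `n ^ 3 + 1` permanents on generic cosets
  of `V`, whatever `V` is;
* for every constant `c` there is a space `V` of dimension `c n` on all of whose cosets the
  permanent has complexity at most `n ^ c (2 c + 2)`.

Hence for every family `V_n` with `dim V_n ≥ n ^ (1 + δ)` (`n` large, `δ > 0` fixed) the permanents
of the generic matrices are approximatively p-computable if and only if the permanents on generic
cosets of the `V_n` are, if and only if those on all cosets are.

Idea of the proof (`Pool/Agent/TH711/PC`): give the position `(i, j)` the weight `n i + j + 1`. The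
one-parameter group acting on the positions by `ε ^ weight` multiplies the permanent by a constant,
and for `ε → 0` a vector of `V` degenerates to its first entry. There are `dim V` positions that
occur as first entries (`Piv`), among so many positions there is room for one of three gadgets with
constant entries whose permanent is the generic `q × q` permanent (`Gad`, `Emb`), and the limit
`ε → 0` is taken by interpolation; the constants of the gadget are perturbed such that all cosets
that are used are generic (`Main`).
-/

set_option autoImplicit false

namespace Pool.Agent.Results.MP_9ce8c8_lc.PermanentOnCosets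

open MvPolynomial

/-- `p` is a variable, a constant or a member of the list `L`. -/
def Available {K σ : Type} [Field K] (L : List (MvPolynomial σ K)) (p : MvPolynomial σ K) : Prop :=
  (∃ v, p = X v) ∨ (∃ c, p = C c) ∨ p ∈ L

/-- The list of the results of the steps of a division-free straight-line program over `K`, last
step first: each entry is the sum, the difference or the product of two polynomials which are
variables, constants or results of earlier steps. -/
def StraightLine {K σ : Type} [Field K] : List (MvPolynomial σ K) → Prop
  | [] => True
  | p :: L => (∃ a b, Available L a ∧ Available L b ∧ (p = a + b ∨ p = a - b ∨ p = a * b)) ∧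
      StraightLine L

/-- `L(p) ≤ r`: the polynomial `p` over `K` is computed from the variables and arbitrary constants
of `K` by a division-free straight-line program with at most `r` additions, subtractions and
multiplications. -/
def LLE {K σ : Type} [Field K] (r : ℕ) (p : MvPolynomial σ K) : Prop :=
  ∃ L : List (MvPolynomial σ K), StraightLine L ∧ L.length ≤ r ∧ Available L p

/-- All coefficients of `P` are defined at `ε = 0` and `P_{ε=0} = f`. -/
def SpecializesTo {k σ : Type} [Field k] (P : MvPolynomial σ (RatFunc k))
    (f : MvPolynomial σ k) : Prop :=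
  ∀ d, (coeff d P).denom.eval 0 ≠ 0 ∧ (coeff d P).eval (RingHom.id k) 0 = coeff d f

/-- The approximative complexity of `f` is at most `r`: some polynomial `P` over `k(ε)`
(`RatFunc k`) that is defined at `ε = 0` and specializes to `f` satisfies `L(P) ≤ r`. -/
def ApproxLE {k σ : Type} [Field k] (r : ℕ) (f : MvPolynomial σ k) : Prop :=
  ∃ P : MvPolynomial σ (RatFunc k), SpecializesTo P f ∧ LLE r P

/-- The permanent of the generic `n × n` matrix. -/
noncomputable def genericPermanent (k : Type) [Field k] (n : ℕ) : MvPolynomial (Fin n × Fin n) k :=
  (Matrix.of fun i j : Fin n => (X (i, j) : MvPolynomial (Fin n × Fin n) k)).permanent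

/-- The permanent on the coset `A + span b`, as a polynomial in the coordinates with respect to
`b`: the permanent of the matrix `A + x_1 b_1 + … + x_d b_d`. -/
noncomputable def cosetPermanent {k : Type} [Field k] {n d : ℕ}
    (b : Fin d → Matrix (Fin n) (Fin n) k) (A : Matrix (Fin n) (Fin n) k) :
    MvPolynomial (Fin d) k :=
  (Matrix.of fun i j : Fin n =>
    (C (A i j) + ∑ s, C (b s i j) * X s : MvPolynomial (Fin d) k)).permanent

theorem straightLine_iff {K σ : Type} [Field K] (L : List (MvPolynomial σ K)) :
    StraightLine L ↔ Pool.Agent.TH837.VP.Bd.Slo L := by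
  induction L with
  | nil => exact Iff.rfl
  | cons p L ih => exact and_congr_right fun _ => ih

theorem approxLE_iff {k σ : Type} [Field k] (r : ℕ) (f : MvPolynomial σ k) :
    ApproxLE r f ↔ Pool.Agent.TH837.VP.Bd.Apx r f := by
  unfold ApproxLE LLE Pool.Agent.TH837.VP.Bd.Apx
  simp only [straightLine_iff]
  exact Iff.rfl

/-- **The permanent on the cosets of a linear space of matrices.** Let `k` be an infinite field.
(1) Let `b_1, …, b_d` be linearly independent `n × n` matrices, `q ≥ 1`, `n ≥ 2 q ^ 2 + q` and
`d ≥ 2 n (q - 1) + 2 q ^ 4`. If the approximative complexity of the permanent on `A + span b` is at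
most `r` for all `A` outside the zero set of some nonzero polynomial `g`, then the approximative
complexity of the permanent of the generic `q × q` matrix is at most `(n ^ 3 + 1) (r + n ^ 3 + 2)`.
(2) For `c ≤ n` there are `c n` linearly independent `n × n` matrices `b_s` such that the permanent
on `A + span b` has complexity at most `n ^ c (2 c + 2)` for all `A`.
(3) Let `δ > 0` and let `b n` be `d n` linearly independent `n × n` matrices with
`d n ≥ n ^ (1 + δ)` for all large `n`. Then the following are equivalent: the permanents of the
generic matrices are approximatively p-computable; the permanents on all cosets of the spaces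
`span (b n)` have polynomially bounded approximative complexity; the permanents on the generic
cosets of the spaces `span (b n)` have polynomially bounded approximative complexity. -/
theorem result (k : Type) [Field k] [Infinite k] :
    (∀ (n q d r : ℕ) (b : Fin d → Matrix (Fin n) (Fin n) k) (g : MvPolynomial (Fin n × Fin n) k),
      LinearIndependent k b → 1 ≤ q → 2 * q ^ 2 + q ≤ n → 2 * n * (q - 1) + 2 * q ^ 4 ≤ d →
      g ≠ 0 →
      (∀ A : Matrix (Fin n) (Fin n) k, eval (fun p => A p.1 p.2) g ≠ 0 →
        ApproxLE r (cosetPermanent b A)) →
      ApproxLE ((n ^ 3 + 1) * (r + n ^ 3 + 2)) (genericPermanent k q)) ∧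
    (∀ n c : ℕ, c ≤ n → ∃ b : Fin (c * n) → Matrix (Fin n) (Fin n) k, LinearIndependent k b ∧
      ∀ A : Matrix (Fin n) (Fin n) k, LLE (n ^ c * (2 * c + 2)) (cosetPermanent b A)) ∧
    (∀ (δ : ℝ) (d : ℕ → ℕ) (b : ∀ n, Fin (d n) → Matrix (Fin n) (Fin n) k), 0 < δ →
      (∀ n, LinearIndependent k (b n)) →
      (∃ n₀ : ℕ, ∀ n : ℕ, n₀ ≤ n → (n : ℝ) ^ (1 + δ) ≤ d n) →
      [∃ K e : ℕ, ∀ m : ℕ, ApproxLE (K * (m + 1) ^ e) (genericPermanent k m),
        ∃ K e : ℕ, ∀ (n : ℕ) (A : Matrix (Fin n) (Fin n) k),
          ApproxLE (K * (n + 1) ^ e) (cosetPermanent (b n) A),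
        ∃ K e : ℕ, ∀ n : ℕ, ∃ g : MvPolynomial (Fin n × Fin n) k, g ≠ 0 ∧
          ∀ A : Matrix (Fin n) (Fin n) k, eval (fun p => A p.1 p.2) g ≠ 0 →
            ApproxLE (K * (n + 1) ^ e) (cosetPermanent (b n) A)].TFAE) := by
  refine ⟨fun n q d r b g hb hq1 hq hd hg h => ?_, fun n c hc => ?_, fun δ d b hδ hb hd => ?_⟩
  · rw [approxLE_iff]
    exact Pool.Agent.TH711.PC.reduction hq1 hq b hb hd g hg fun A hA =>
      (approxLE_iff r _).1 (h A hA)
  · obtain ⟨m, rfl⟩ := Nat.exists_eq_add_of_le hc
    refine ⟨Pool.Agent.TH711.PC.firstCols k c m, Pool.Agent.TH711.PC.firstCols_li k c m,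
      fun A => ?_⟩
    obtain ⟨L, h1, h2, h3⟩ := Pool.Agent.TH711.PC.slo_firstCols c m A
    exact ⟨L, (straightLine_iff L).2 h1, h2, h3⟩
  · simp only [approxLE_iff]
    exact Pool.Agent.TH711.PC.tfae δ hδ d b hb hd

end Pool.Agent.Results.MP_9ce8c8_lc.PermanentOnCosets
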