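import Pool.Agent.TH837.VP.Bd

/-!
# MP_9ce8c8_lc: the approximative complexity of the permanents of Vandermonde matrices

Let `V_n = per (x_i ^ j)` (`0 ≤ j < n`) be the permanent of the Vandermonde matrix, that is, the sum
of `∏ x_i ^ σ(i)` over all permutations `σ` of `{0, …, n-1}`, a symmetric polynomial in only `n`
variables (the monomial symmetric polynomial of the staircase partition). The determinant of the
Vandermonde matrix is a product of linear forms. We show that over fields of characteristic zero the
family `V_n` is approximatively p-computable if and only if the permanent is, so that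
`VNP ⊆ \underline{VP}` is equivalent to a polynomial bound for `\underline{L}(V_n)`.

The proof writes the `m × m` permanent as a linear combination of polynomially many polynomials
`V_k(ℓ_1, …, ℓ_k)` with `k` polynomial in `m` and affine forms `ℓ_i` in one variable each
(`Pool/Agent/TH837/VP/Rep.lean`, theorem `rep`; an overview is given in the file
`Pool/Agent/Results/MP_8b1d3b_lc/VandermondePermanents.lean`), which is then applied to the
polynomials over `k(ε)` that specialize to the `V_k` (`Bd`).
-/

set_option autoImplicit false

namespace Pool.Agent.Results.MP_9ce8c8_lc.VandermondePermanents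

open MvPolynomial

/-- `p` is a variable, a constant or a member of the list `L`. -/
def Available {K σ : Type} [Field K] (L : List (MvPolynomial σ K)) (p : MvPolynomial σ K) : Prop :=
  (∃ v, p = X v) ∨ (∃ c, p = C c) ∨ p ∈ L

/-- The list of the results of the steps of a division-free straight-line program over `K`, last
step first: each entry is the sum, the difference or the product of two polynomials which are
variables, constants or results of earlier steps. -/
def StraightLine {K σ : Type} [Field K] : List (MvPolynomial σ K) → Prop
  | [] => True
  | p :: L => (∃ a b, Available L a ∧ Available L b ∧ (p = a + b ∨ p = a - b ∨ p = a * b)) ∧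
      StraightLine L

/-- `L(p) ≤ r`: the polynomial `p` over `K` is computed from the variables and arbitrary constants
of `K` by a division-free straight-line program with at most `r` additions, subtractions and
multiplications. -/
def LLE {K σ : Type} [Field K] (r : ℕ) (p : MvPolynomial σ K) : Prop :=
  ∃ L : List (MvPolynomial σ K), StraightLine L ∧ L.length ≤ r ∧ Available L p

/-- All coefficients of `P` are defined at `ε = 0` and `P_{ε=0} = f`. -/
def SpecializesTo {k σ : Type} [Field k] (P : MvPolynomial σ (RatFunc k))
    (f : MvPolynomial σ k) : Prop :=
  ∀ d, (coeff d P).denom.eval 0 ≠ 0 ∧ (coeff d P).eval (RingHom.id k) 0 = coeff d f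

/-- The approximative complexity of `f` is at most `r`: some polynomial `P` over `k(ε)`
(`RatFunc k`) that is defined at `ε = 0` and specializes to `f` satisfies `L(P) ≤ r`. -/
def ApproxLE {k σ : Type} [Field k] (r : ℕ) (f : MvPolynomial σ k) : Prop :=
  ∃ P : MvPolynomial σ (RatFunc k), SpecializesTo P f ∧ LLE r P

/-- The permanent of the generic `n × n` matrix. -/
noncomputable def genericPermanent (k : Type) [Field k] (n : ℕ) : MvPolynomial (Fin n × Fin n) k :=
  (Matrix.of fun i j : Fin n => (X (i, j) : MvPolynomial (Fin n × Fin n) k)).permanent

/-- The permanent of the Vandermonde matrix of `n` variables: the sum of `∏ i, x_i ^ σ(i)` over the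
permutations `σ` of `{0, …, n-1}`. -/
noncomputable def vandermondePermanent (k : Type) [Field k] (n : ℕ) : MvPolynomial (Fin n) k :=
  ∑ σ : Equiv.Perm (Fin n), ∏ i, (X i : MvPolynomial (Fin n) k) ^ (σ i : ℕ)

theorem vandermondePermanent_eq (k : Type) [Field k] (n : ℕ) :
    vandermondePermanent k n = Pool.Agent.TH837.VP.gvan k n := by
  rw [Pool.Agent.TH837.VP.gvan, ← Matrix.permanent_transpose]
  rfl

theorem straightLine_iff {K σ : Type} [Field K] (L : List (MvPolynomial σ K)) :
    StraightLine L ↔ Pool.Agent.TH837.VP.Bd.Slo L := by
  induction L with
  | nil => exact Iff.rfl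
  | cons p L ih => exact and_congr_right fun _ => ih

theorem approxLE_iff {k σ : Type} [Field k] (r : ℕ) (f : MvPolynomial σ k) :
    ApproxLE r f ↔ Pool.Agent.TH837.VP.Bd.Apx r f := by
  unfold ApproxLE LLE Pool.Agent.TH837.VP.Bd.Apx
  simp only [straightLine_iff]
  exact Iff.rfl

/-- **Approximative complexity of the permanents of Vandermonde matrices.** Let `k` be a field of
characteristic zero.
(1) The approximative complexity of the permanent of the Vandermonde matrix of `n` variables is at
most that of the permanent of the generic `n × n` matrix plus `n ^ 2`.
(2) If the approximative complexity of the permanents of the Vandermonde matrices of at most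
`700 (m + 1) ^ 4` variables is at most `B`, then the approximative complexity of the permanent of
the generic `m × m` matrix is at most `10 ^ 11 (m + 1) ^ 17 (B + 1400 (m + 1) ^ 4 + 2)`.
(3) The permanents of the generic matrices are approximatively p-computable if and only if the
permanents of the Vandermonde matrices are. -/
theorem result (k : Type) [Field k] [CharZero k] :
    (∀ n r : ℕ, ApproxLE r (genericPermanent k n) →
      ApproxLE (r + n ^ 2) (vandermondePermanent k n)) ∧
    (∀ m B : ℕ, (∀ n ≤ 700 * (m + 1) ^ 4, ApproxLE B (vandermondePermanent k n)) →
      ApproxLE (10 ^ 11 * (m + 1) ^ 17 * (B + 1400 * (m + 1) ^ 4 + 2)) (genericPermanent k m)) ∧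
    ((∃ K e : ℕ, ∀ n : ℕ, ApproxLE (K * (n + 1) ^ e) (genericPermanent k n)) ↔
      ∃ K e : ℕ, ∀ n : ℕ, ApproxLE (K * (n + 1) ^ e) (vandermondePermanent k n)) := by
  simp only [vandermondePermanent_eq, approxLE_iff]
  exact ⟨Pool.Agent.TH837.VP.Bd.van_of_per, fun m B h => Pool.Agent.TH837.VP.Bd.per_of_van m B h,
    Pool.Agent.TH837.VP.Bd.per_iff_van k⟩

end Pool.Agent.Results.MP_9ce8c8_lc.VandermondePermanents
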